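import Pool.Agent.W716.FV.StmA

/-!
# The Jacobian bound (part FV-JD)
-/

set_option autoImplicit false

open MeasureTheory

namespace Pool.Agent.W588.FV.JD

open Pool.Agent.W716.FV

/-- A matrix `B` with `B^T G B = 1`. -/
theorem exists_B {n : ℕ} (G : Matrix (Fin n) (Fin n) ℝ) (hG : G.PosDef) :
    ∃ B : E n →L[ℝ] E n, (∀ v, ∑ i, ∑ j, (B v) i * G i j * (B v) j = ‖v‖ ^ 2) ∧
      |B.det| * √G.det = 1 := by
  classical
  obtain ⟨C, hC⟩ : ∃ C : Matrix (Fin n) (Fin n) ℝ, G = star C * C := by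
    open scoped MatrixOrder in
    exact CStarAlgebra.nonneg_iff_eq_star_mul_self.mp hG.posSemidef.nonneg
  have hdet : G.det = C.det ^ 2 := by
    rw [hC, Matrix.det_mul, Matrix.star_eq_conjTranspose, Matrix.det_conjTranspose]
    simp [sq]
  have hCd : C.det ≠ 0 := by
    intro h
    have := hG.det_pos
    rw [hdet, h] at this
    simp at this
  have hCu : IsUnit C.det := isUnit_iff_ne_zero.2 hCd
  let Bl : E n →ₗ[ℝ] E n := Matrix.toLpLin 2 2 C⁻¹
  refine ⟨LinearMap.toContinuousLinearMap Bl, ?_, ?_⟩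
  · intro v
    set u : Fin n → ℝ := C⁻¹.mulVec (WithLp.ofLp v) with hu
    have h1 : ∀ i, (LinearMap.toContinuousLinearMap Bl v) i = u i := fun i => rfl
    simp only [h1]
    have h2 : C.mulVec u = WithLp.ofLp v := by
      rw [hu, Matrix.mulVec_mulVec, Matrix.mul_nonsing_inv _ hCu, Matrix.one_mulVec]
    have h3 : ∑ i, ∑ j, u i * G i j * u j = u ⬝ᵥ (G.mulVec u) := by
      simp only [dotProduct, Matrix.mulVec, Finset.mul_sum, mul_assoc]
    rw [h3, hC, ← Matrix.mulVec_mulVec, Matrix.dotProduct_mulVec, Matrix.star_eq_conjTranspose,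
      Matrix.vecMul_conjTranspose, h2]
    simp only [star_trivial, dotProduct, EuclideanSpace.norm_sq_eq, Real.norm_eq_abs, sq_abs]
    rw [h2]
    simp only [sq]
  · have h1 : (LinearMap.toContinuousLinearMap Bl).det = C.det⁻¹ := by
      rw [ContinuousLinearMap.det]
      change LinearMap.det Bl = _
      rw [show Bl = Matrix.toLin (PiLp.basisFun 2 ℝ (Fin n)) (PiLp.basisFun 2 ℝ (Fin n)) C⁻¹
        from rfl, LinearMap.det_toLin, Matrix.det_nonsing_inv, Ring.inverse_eq_inv']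
    rw [h1, hdet, Real.sqrt_sq_eq_abs, abs_inv, inv_mul_cancel₀ (abs_ne_zero.2 hCd)]

theorem main (hPM : PMoments) (hHD : DetHad) : JDet := by
  intro n G hG R hR η a ℓ ha hℓ hbd L hL
  obtain ⟨hprob, hint, hg0, hk0, hk2, hkf, hgg, hkgg, hxi⟩ := hPM n
  obtain ⟨B, hB, hBdet⟩ := exists_B G hG
  have _ := hprob
  have h3 : (0 : ℝ) ≤ 3 := by norm_num
  have hs3 : √(3 : ℝ) * √3 = 3 := Real.mul_self_sqrt h3
  have hs30 : (0 : ℝ) < √3 := Real.sqrt_pos.2 (by norm_num)
  -- L² facts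
  have hκ : MemLp (fun w : E n × ℝ => w.2) 2 (P n) := by
    rw [memLp_two_iff_integrable_sq measurable_snd.aestronglyMeasurable]
    refine (hint 2 0 (by norm_num)).congr (Filter.Eventually.of_forall fun w => ?_)
    simp
  have hgn : MemLp (fun w : E n × ℝ => w.1) 2 (P n) := by
    rw [memLp_two_iff_integrable_sq_norm measurable_fst.aestronglyMeasurable]
    refine (hint 0 2 (by norm_num)).congr (Filter.Eventually.of_forall fun w => ?_)
    simp
  have hξ : MemLp (fun w : E n × ℝ => xi η w) 2 (P n) := by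
    have h1 : MemLp (fun w : E n × ℝ => w.2 • η) 2 (P n) :=
      ((ContinuousLinearMap.id ℝ ℝ).smulRight η).comp_memLp' hκ
    exact hgn.add h1
  have hsm : ∀ f : E n × ℝ → ℝ, MemLp f 2 (P n) → Integrable (fun w => f w • w.1) (P n) :=
    fun f hf => memLp_one_iff_integrable.1 (MemLp.smul hgn hf)
  have haL : MemLp a 2 (P n) := by
    refine hξ.mono ha.aestronglyMeasurable (hbd.mono fun w hw => ?_)
    rw [Real.norm_eq_abs]
    exact abs_le_of_sq_le_sq hw.1 (norm_nonneg _)
  have hℓm : ∀ v : E n, Measurable fun w => ℓ w v := fun v => hℓ.apply_continuousLinearMap v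
  have hℓL : ∀ v : E n, MemLp (fun w => ℓ w (B v)) 2 (P n) := by
    intro v
    have h1 : MemLp (fun w : E n × ℝ => ‖v‖ • xi η w) 2 (P n) := hξ.const_smul ‖v‖
    refine h1.mono (hℓm _).aestronglyMeasurable (hbd.mono fun w hw => ?_)
    rw [Real.norm_eq_abs, norm_smul, norm_norm]
    refine abs_le_of_sq_le_sq ?_ (by positivity)
    have h2 := hw.2 (B v)
    rw [hB] at h2
    calc ℓ w (B v) ^ 2 ≤ (‖xi η w‖ ^ 2 - a w ^ 2) * ‖v‖ ^ 2 := h2
      _ ≤ ‖xi η w‖ ^ 2 * ‖v‖ ^ 2 := by
          apply mul_le_mul_of_nonneg_right _ (sq_nonneg _)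
          linarith [sq_nonneg (a w)]
      _ = (‖v‖ * ‖xi η w‖) ^ 2 := by ring
  have hgi : ∀ x : E n, MemLp (fun w : E n × ℝ => (inner ℝ w.1 x : ℝ)) 2 (P n) := by
    intro x
    exact hgn.inner_const x
  -- the function h
  let h : ℝ → E n → E n × ℝ → ℝ := fun r v w => (w.2 * R - a w) * r - ℓ w (B v)
  have hhL : ∀ r v, MemLp (h r v) 2 (P n) := by
    intro r v
    have h1 : MemLp (fun w : E n × ℝ => (w.2 * R - a w) * r) 2 (P n) :=
      ((hκ.mul_const R).sub haL).mul_const r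
    exact h1.sub (hℓL v)
  -- the operator N
  let D : (ℝ × E n) →L[ℝ] (ℝ × E n) :=
    (√3 • ContinuousLinearMap.id ℝ ℝ).prodMap (ContinuousLinearMap.id ℝ (E n))
  let A : (ℝ × E n) →L[ℝ] (ℝ × E n) :=
    (ContinuousLinearMap.id ℝ ℝ).prodMap (R⁻¹ • B)
  let N : (ℝ × E n) →L[ℝ] (ℝ × E n) := D ∘L L ∘L A
  have hNdet : N.det = √3 * (L.det * (R⁻¹ ^ n * B.det)) := by
    have e1 : N.det = LinearMap.det ((D : (ℝ × E n) →ₗ[ℝ] (ℝ × E n)) ∘ₗ
        ((L : (ℝ × E n) →ₗ[ℝ] (ℝ × E n)) ∘ₗ (A : (ℝ × E n) →ₗ[ℝ] (ℝ × E n)))) := rfl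
    have eD : LinearMap.det (D : (ℝ × E n) →ₗ[ℝ] (ℝ × E n)) = √3 := by
      have : (D : (ℝ × E n) →ₗ[ℝ] (ℝ × E n)) =
          LinearMap.prodMap (√3 • LinearMap.id) LinearMap.id := rfl
      rw [this, LinearMap.det_prodMap, LinearMap.det_smul, LinearMap.det_id, LinearMap.det_id]
      simp
    have eA : LinearMap.det (A : (ℝ × E n) →ₗ[ℝ] (ℝ × E n)) = R⁻¹ ^ n * B.det := by
      have : (A : (ℝ × E n) →ₗ[ℝ] (ℝ × E n)) =
          LinearMap.prodMap LinearMap.id (R⁻¹ • (B : E n →ₗ[ℝ] E n)) := rfl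
      rw [this, LinearMap.det_prodMap, LinearMap.det_smul, LinearMap.det_id]
      simp [ContinuousLinearMap.det]
    rw [e1, LinearMap.det_comp, LinearMap.det_comp, eD, eA]
  have hκg : ∫ w : E n × ℝ, w.2 • w.1 ∂(P n) = 0 := by
    have hi : Integrable (fun w : E n × ℝ => w.2 • w.1) (P n) := by
      exact hsm _ hκ
    apply ext_inner_right ℝ
    intro v
    rw [inner_zero_left, real_inner_comm, ← integral_inner hi]
    rw [← hkf (fun x => inner ℝ x v)]
    refine integral_congr_ae (Filter.Eventually.of_forall fun w => ?_)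
    simp only
    rw [inner_smul_right, real_inner_comm]
  have hNv : ∀ r v, N (r, v) = (√3 * ∫ w, w.2 * h r v w ∂(P n), -∫ w, h r v w • w.1 ∂(P n)) := by
    intro r v
    have e1 : N (r, v) = (√3 * (L (r, R⁻¹ • B v)).1, (L (r, R⁻¹ • B v)).2) := rfl
    have e2 : ∀ w, r * a w + R * ℓ w (R⁻¹ • B v) = r * a w + ℓ w (B v) := by
      intro w
      rw [map_smul, smul_eq_mul, ← mul_assoc, mul_inv_cancel₀ hR.ne', one_mul]
    rw [e1, hL]
    simp only [e2]
    have hm : MemLp (fun w => r * a w + ℓ w (B v)) 2 (P n) := (haL.const_mul r).add (hℓL v)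
    have hdec : ∀ w : E n × ℝ, h r v w = (R * r) * w.2 - (r * a w + ℓ w (B v)) := by
      intro w; simp only [h]; ring
    refine Prod.ext ?_ ?_
    · simp only
      congr 1
      have i1 : Integrable (fun w : E n × ℝ => (R * r) * w.2 ^ 2) (P n) :=
        ((memLp_two_iff_integrable_sq measurable_snd.aestronglyMeasurable).1 hκ).const_mul _
      have i2 : Integrable (fun w : E n × ℝ => w.2 * (r * a w + ℓ w (B v))) (P n) :=
        hκ.integrable_mul hm
      have e3 : ∫ w, w.2 * h r v w ∂(P n) =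
          ∫ w, ((R * r) * w.2 ^ 2 - w.2 * (r * a w + ℓ w (B v))) ∂(P n) := by
        refine integral_congr_ae (Filter.Eventually.of_forall fun w => ?_)
        simp only [hdec]; ring
      rw [e3, integral_sub i1 i2, integral_const_mul, hk2]
      ring
    · simp only
      have i1 : Integrable (fun w : E n × ℝ => (R * r) • (w.2 • w.1)) (P n) :=
        (hsm _ hκ).smul (R * r)
      have i2 : Integrable (fun w : E n × ℝ => (r * a w + ℓ w (B v)) • w.1) (P n) :=
        hsm _ hm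
      have e3 : ∫ w, h r v w • w.1 ∂(P n) =
          ∫ w, ((R * r) • (w.2 • w.1) - (r * a w + ℓ w (B v)) • w.1) ∂(P n) := by
        refine integral_congr_ae (Filter.Eventually.of_forall fun w => ?_)
        simp only [hdec, sub_smul, mul_smul]
      rw [e3, integral_sub i1 i2, integral_smul, hκg, smul_zero, zero_sub, neg_neg]
  -- the main inequality
  have hkey : ∀ r v, nsq (N (r, v)) ≤ ∫ w, h r v w ^ 2 ∂(P n) := by
    intro r v
    set H := h r v with hH
    have hHL := hhL r v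
    set t : ℝ := √3 * ∫ w, w.2 * H w ∂(P n) with ht
    set x : E n := -∫ w, H w • w.1 ∂(P n) with hx
    have e0 : nsq (N (r, v)) = t ^ 2 + ‖x‖ ^ 2 := by
      rw [hNv]; rfl
    let φ : E n × ℝ → ℝ := fun w => (√3 * t) * w.2 - inner ℝ w.1 x
    have hφL : MemLp φ 2 (P n) := (hκ.const_mul _).sub (hgi x)
    have iHH : Integrable (fun w => H w ^ 2) (P n) :=
      (memLp_two_iff_integrable_sq hHL.1).1 hHL
    have iφφ : Integrable (fun w => φ w ^ 2) (P n) :=
      (memLp_two_iff_integrable_sq hφL.1).1 hφL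
    have iHφ : Integrable (fun w => H w * φ w) (P n) := hHL.integrable_mul hφL
    have iκH : Integrable (fun w : E n × ℝ => w.2 * H w) (P n) := hκ.integrable_mul hHL
    have iHg : Integrable (fun w : E n × ℝ => H w * inner ℝ w.1 x) (P n) :=
      hHL.integrable_mul (hgi x)
    have iκκ : Integrable (fun w : E n × ℝ => w.2 ^ 2) (P n) :=
      (memLp_two_iff_integrable_sq measurable_snd.aestronglyMeasurable).1 hκ
    have iκg : Integrable (fun w : E n × ℝ => w.2 * inner ℝ w.1 x) (P n) :=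
      hκ.integrable_mul (hgi x)
    have igg : Integrable (fun w : E n × ℝ => (inner ℝ w.1 x : ℝ) * inner ℝ w.1 x) (P n) :=
      (hgi x).integrable_mul (hgi x)
    have e1 : ∫ w, H w * φ w ∂(P n) = t ^ 2 + ‖x‖ ^ 2 := by
      have e2 : ∫ w, H w * φ w ∂(P n) =
          ∫ w, ((√3 * t) * (w.2 * H w) - H w * inner ℝ w.1 x) ∂(P n) := by
        refine integral_congr_ae (Filter.Eventually.of_forall fun w => ?_)
        simp only [φ]; ring
      have e3 : ∫ w, H w * inner ℝ w.1 x ∂(P n) = -‖x‖ ^ 2 := by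
        have iv : Integrable (fun w : E n × ℝ => H w • w.1) (P n) := hsm _ hHL
        have e4 : ∫ w, H w • w.1 ∂(P n) = -x := by rw [hx, neg_neg]
        have e5 := integral_inner (𝕜 := ℝ) iv x
        rw [e4, inner_neg_right, real_inner_self_eq_norm_sq] at e5
        rw [← e5]
        refine integral_congr_ae (Filter.Eventually.of_forall fun w => ?_)
        simp only
        rw [inner_smul_right, real_inner_comm]
      rw [e2, integral_sub (iκH.const_mul _) iHg, integral_const_mul, e3, ht]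
      ring_nf
    have e6 : ∫ w, φ w ^ 2 ∂(P n) = t ^ 2 + ‖x‖ ^ 2 := by
      have e7 : ∫ w, φ w ^ 2 ∂(P n) = ∫ w, ((3 * t ^ 2) * w.2 ^ 2 -
          (2 * (√3 * t)) * (w.2 * inner ℝ w.1 x) + (inner ℝ w.1 x : ℝ) * inner ℝ w.1 x) ∂(P n) := by
        refine integral_congr_ae (Filter.Eventually.of_forall fun w => ?_)
        simp only [φ]
        have : (√3 * t * w.2 - inner ℝ w.1 x) ^ 2 = (√3 * √3) * t ^ 2 * w.2 ^ 2 -
          (2 * (√3 * t)) * (w.2 * inner ℝ w.1 x) + (inner ℝ w.1 x : ℝ) * inner ℝ w.1 x := by ring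
        rw [this, hs3]
      have iA : Integrable (fun w : E n × ℝ => (3 * t ^ 2) * w.2 ^ 2 -
          (2 * (√3 * t)) * (w.2 * inner ℝ w.1 x)) (P n) :=
        (iκκ.const_mul _).sub (iκg.const_mul _)
      rw [e7, integral_add iA igg, integral_sub (iκκ.const_mul _) (iκg.const_mul _),
        integral_const_mul, integral_const_mul, hk2, hgg, hkf (fun y => inner ℝ y x),
        real_inner_self_eq_norm_sq]
      ring
    have e8 : 0 ≤ ∫ w, (H w - φ w) ^ 2 ∂(P n) := integral_nonneg fun w => sq_nonneg _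
    have e9 : ∫ w, (H w - φ w) ^ 2 ∂(P n) =
        ∫ w, (H w ^ 2 - 2 * (H w * φ w) + φ w ^ 2) ∂(P n) := by
      refine integral_congr_ae (Filter.Eventually.of_forall fun w => ?_)
      simp only; ring
    have iB : Integrable (fun w => H w ^ 2 - 2 * (H w * φ w)) (P n) := iHH.sub (iHφ.const_mul _)
    rw [e9, integral_add iB iφφ, integral_sub iHH (iHφ.const_mul _), integral_const_mul, e1,
      e6] at e8
    rw [e0]
    linarith
  -- the sum over the basis
  set S : ℝ := (R ^ 2 + ‖η‖ ^ 2) / 6 - R * ∫ w, w.2 * a w ∂(P n) with hS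
  have hsum : nsq (N (1, 0)) + ∑ i, nsq (N (0, EuclideanSpace.single i 1)) ≤ n + 2 * S := by
    have i0 : ∀ r v, Integrable (fun w => h r v w ^ 2) (P n) := fun r v =>
      (memLp_two_iff_integrable_sq (hhL r v).1).1 (hhL r v)
    have e1 : nsq (N (1, 0)) + ∑ i, nsq (N (0, EuclideanSpace.single i 1)) ≤
        ∫ w, (h 1 0 w ^ 2 + ∑ i, h 0 (EuclideanSpace.single i 1) w ^ 2) ∂(P n) := by
      rw [integral_add (i0 _ _) (integrable_finsetSum _ fun i _ => i0 _ _),
        integral_finsetSum _ fun i _ => i0 _ _]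
      exact add_le_add (hkey _ _) (Finset.sum_le_sum fun i _ => hkey _ _)
    have iκκ : Integrable (fun w : E n × ℝ => w.2 ^ 2) (P n) :=
      (memLp_two_iff_integrable_sq measurable_snd.aestronglyMeasurable).1 hκ
    have iκa : Integrable (fun w : E n × ℝ => w.2 * a w) (P n) := hκ.integrable_mul haL
    have iξξ : Integrable (fun w : E n × ℝ => ‖xi η w‖ ^ 2) (P n) :=
      (memLp_two_iff_integrable_sq_norm hξ.1).1 hξ
    have e2 : ∫ w, (h 1 0 w ^ 2 + ∑ i, h 0 (EuclideanSpace.single i 1) w ^ 2) ∂(P n) ≤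
        ∫ w, (R ^ 2 * w.2 ^ 2 - (2 * R) * (w.2 * a w) + ‖xi η w‖ ^ 2) ∂(P n) := by
      refine integral_mono_ae ((i0 _ _).add (integrable_finsetSum _ fun i _ => i0 _ _))
        (((iκκ.const_mul _).sub (iκa.const_mul _)).add iξξ) (hbd.mono fun w hw => ?_)
      simp only [h, map_zero, sub_zero, mul_one, mul_zero, zero_sub]
      -- the dual norm
      set c : Fin n → ℝ := fun i => ℓ w (B (EuclideanSpace.single i 1)) with hc
      have hsq : ∑ i, c i ^ 2 ≤ ‖xi η w‖ ^ 2 - a w ^ 2 := by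
        set v : E n := ∑ i, c i • EuclideanSpace.single i (1 : ℝ) with hv
        have hvn : ‖v‖ ^ 2 = ∑ i, c i ^ 2 := by
          rw [EuclideanSpace.norm_sq_eq]
          refine Finset.sum_congr rfl fun i _ => ?_
          have : v i = c i := by
            rw [hv]
            simp [Finset.sum_apply, Pi.single_apply]
          rw [this, Real.norm_eq_abs, sq_abs]
        have hlv : ℓ w (B v) = ∑ i, c i ^ 2 := by
          rw [hv, map_sum, map_sum]
          refine Finset.sum_congr rfl fun i _ => ?_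
          rw [map_smul, map_smul, smul_eq_mul, sq]
        have h2 := hw.2 (B v)
        rw [hB, hvn, hlv] at h2
        have h4 : 0 ≤ ∑ i, c i ^ 2 := Finset.sum_nonneg fun i _ => sq_nonneg _
        rcases h4.eq_or_lt with h5 | h5
        · rw [← h5]; linarith [hw.1]
        · have h6 : (∑ i, c i ^ 2) * (∑ i, c i ^ 2) ≤
              (‖xi η w‖ ^ 2 - a w ^ 2) * ∑ i, c i ^ 2 := by rw [← sq]; exact h2
          exact le_of_mul_le_mul_right h6 h5
      have e3 : ∑ i, (-ℓ w (B (EuclideanSpace.single i 1))) ^ 2 = ∑ i, c i ^ 2 :=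
        Finset.sum_congr rfl fun i _ => by rw [hc]; ring
      rw [e3]
      nlinarith [hsq]
    have e4 : ∫ w, (R ^ 2 * w.2 ^ 2 - (2 * R) * (w.2 * a w) + ‖xi η w‖ ^ 2) ∂(P n) =
        n + 2 * S := by
      have iA : Integrable (fun w : E n × ℝ => R ^ 2 * w.2 ^ 2 - (2 * R) * (w.2 * a w)) (P n) :=
        (iκκ.const_mul _).sub (iκa.const_mul _)
      rw [integral_add iA iξξ, integral_sub (iκκ.const_mul _) (iκa.const_mul _),
        integral_const_mul, integral_const_mul, hk2, hxi, hS]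
      ring
    linarith
  have hC0 : 0 ≤ n + 2 * S := by
    refine le_trans ?_ hsum
    have hn0 : ∀ z : ℝ × E n, 0 ≤ nsq z := fun z => by unfold nsq; positivity
    exact add_nonneg (hn0 _) (Finset.sum_nonneg fun i _ => hn0 _)
  have hdN := hHD n N (n + 2 * S) hsum
  have hn1 : (0 : ℝ) < (n : ℝ) + 1 := by positivity
  have hexp : (((n : ℝ) + 2 * S) / (n + 1)) ^ (((n : ℝ) + 1) / 2) ≤ Real.exp (S - 1 / 2) := by
    have h1 : ((n : ℝ) + 2 * S) / (n + 1) ≤ Real.exp ((2 * S - 1) / (n + 1)) := by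
      have h2 := Real.add_one_le_exp ((2 * S - 1) / ((n : ℝ) + 1))
      have h3 : (2 * S - 1) / ((n : ℝ) + 1) + 1 = ((n : ℝ) + 2 * S) / (n + 1) := by
        field_simp; ring
      rw [h3] at h2; exact h2
    calc (((n : ℝ) + 2 * S) / (n + 1)) ^ (((n : ℝ) + 1) / 2)
        ≤ (Real.exp ((2 * S - 1) / (n + 1))) ^ (((n : ℝ) + 1) / 2) :=
          Real.rpow_le_rpow (by positivity) h1 (by positivity)
      _ = Real.exp (S - 1 / 2) := by
          rw [← Real.exp_mul]
          congr 1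
          field_simp
  have hdN2 := hdN.trans hexp
  rw [hNdet, abs_mul, abs_mul, abs_mul, abs_of_pos hs30,
    abs_of_nonneg (a := R⁻¹ ^ n) (by positivity)] at hdN2
  have hBd0 : 0 < √G.det := Real.sqrt_pos.2 hG.det_pos
  have hRn : (0 : ℝ) < R ^ n := by positivity
  have hfin : |L.det| = (√3)⁻¹ * (√3 * (|L.det| * (R⁻¹ ^ n * |B.det|))) * R ^ n * √G.det := by
    have h1 : (√3)⁻¹ * (√3 * (|L.det| * (R⁻¹ ^ n * |B.det|))) * R ^ n * √G.det =
        ((√3)⁻¹ * √3) * |L.det| * ((R⁻¹ * R) ^ n) * (|B.det| * √G.det) := by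
      rw [mul_pow]; ring
    rw [h1, inv_mul_cancel₀ hs30.ne', inv_mul_cancel₀ hR.ne', hBdet]
    simp
  rw [hfin]
  gcongr

end Pool.Agent.W588.FV.JD
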